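import Mathlib
import Pool.Agent.K6.H9.SV.Main

/-! # MP_edeaa2_an: Hilbert functions of sets of small points

Let `d ≥ 2`, `e ≥ 1` and `δ, ν > 0`. We consider all products `F` of `d` real linear forms `l_i` in `d`
variables with absolute determinant `δ` and `|F| ≥ ν` at the nonzero integer points, and the small
points: the nonzero integer points `p` with `|F(p)| ≤ Λ`. A parallelepiped `|a_i l_i(p)| ≤ exp x`
(`a` positive of product one, `x ≥ 1`) contains at most `C x ^ (d - 1)` of them (and at least
`c x ^ (d - 1)` if `Λ` is large). All constants are the same for all these forms.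

(A) Every set `S` of more than `C x ^ (e - 1)` small points of a parallelepiped has a Hilbert function
which in degree `t` is at least that of the projective space of dimension `e`: the restrictions to
`S` of the real forms of degree `t` span a space of dimension at least `binom (t + e) e`. The constant
`C` depends on `d, e, t, δ, ν, Λ` only. So at most `C x ^ (e - 1)` small points of a parallelepiped
lie in a linear subspace of dimension `e` (`t = 1`), or on a closed subset of dimension `e - 1` and
given degree of projective space, for all these forms and subsets with the same `C`. For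
`e = d - 1` these are the hypersurfaces of a given degree.

(B) The same bound holds for the small points at which any `e + 1` of the linear forms are nearly
related: let a nonzero real form `R_J` of degree `t` in `e + 1` variables be given for every family
`J` of `e + 1` different indices, and let `0 ≤ θ < 1`. At most `C x ^ (e - 1)` small points `p` of a
parallelepiped have the property that each `R_J` has at `(l_j(p))_{j ∈ J}` a value at most `θ` times
one of its terms. The constant does not depend on the forms `R_J`.

The proof. If the Hilbert function of `S` is small in degree `t`, then any `e + 1` of the linear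
forms satisfy a relation of degree `t` on `S`. Of each of these relations two terms have nearly the
same absolute value at a given point. This puts the vector of the `log |l_i(p)|` near one of
boundedly many affine subspaces of dimension `e - 1`, since a linear space on which any `e + 1`
coordinates are dependent has dimension at most `e`; and a ball contains boundedly many of these
vectors, with multiplicities. -/

set_option autoImplicit false

namespace Pool.Agent.Results.MP_edeaa2_an.HilbertFunctions

open Pool.Agent.K6.H9.SV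

/-- the product of the linear forms given by the rows of `g`, at an integer point -/
noncomputable def F {d : ℕ} (g : Matrix (Fin d) (Fin d) ℝ) (p : Fin d → ℤ) : ℝ :=
  ∏ i : Fin d, ∑ j : Fin d, g i j * (p j : ℝ)

/-- the matrices with absolute determinant `δ` and form at least `ν` in absolute value at the nonzero
integer points -/
def System (d : ℕ) (δ ν : ℝ) : Set (Matrix (Fin d) (Fin d) ℝ) :=
  {g | |g.det| = δ ∧ ∀ p : Fin d → ℤ, p ≠ 0 → ν ≤ |F g p|}

/-- `a` is positive of product one -/
def Position {d : ℕ} (a : Fin d → ℝ) : Prop := (∀ i, 0 < a i) ∧ ∏ i, a i = 1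

/-- a finite set of nonzero integer points `p` with `|F(p)| ≤ Λ` and `|a_i l_i(p)| ≤ exp x` for
all `i` -/
def SmallPoints {d : ℕ} (g : Matrix (Fin d) (Fin d) ℝ) (Λ : ℝ) (a : Fin d → ℝ) (x : ℝ)
    (S : Finset (Fin d → ℤ)) : Prop :=
  ∀ p ∈ S, p ≠ 0 ∧ |F g p| ≤ Λ ∧ ∀ i, |a i * ∑ j, g i j * (p j : ℝ)| ≤ Real.exp x

/-- the Hilbert function of a finite set `S` of integer points: the dimension of the space of the
restrictions to `S` of the real forms of degree `t` -/
noncomputable def hilbert {d : ℕ} (t : ℕ) (S : Finset (Fin d → ℤ)) : ℕ :=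
  Module.finrank ℝ ((MvPolynomial.homogeneousSubmodule (Fin d) ℝ t).map
    (LinearMap.pi fun p : S =>
      (MvPolynomial.aeval fun i => ((p : Fin d → ℤ) i : ℝ)).toLinearMap :
        MvPolynomial (Fin d) ℝ →ₗ[ℝ] (S → ℝ)))

/-- the value of `R` at `y` is at most `θ` times one of the terms of `R` at `y` -/
def NearZero {k : ℕ} (θ : ℝ) (R : MvPolynomial (Fin k) ℝ) (y : Fin k → ℝ) : Prop :=
  ∃ m : Fin k →₀ ℕ, |MvPolynomial.eval y R| ≤ θ * |MvPolynomial.coeff m R * ∏ i, y i ^ m i|

theorem result (d e t : ℕ) (hd : 2 ≤ d) (he : 1 ≤ e) (δ ν Λ : ℝ) (hδ : 0 < δ) (hν : 0 < ν) :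
    -- (A)
    (∃ C : ℝ, 0 < C ∧ ∀ g ∈ System d δ ν, ∀ x : ℝ, 1 ≤ x →
      ∀ a : Fin d → ℝ, Position a → ∀ S : Finset (Fin d → ℤ), SmallPoints g Λ a x S →
      C * x ^ (e - 1) < (S.card : ℝ) → (t + e).choose e ≤ hilbert t S) ∧
    -- (B)
    (∀ θ : ℝ, 0 ≤ θ → θ < 1 → ∃ C : ℝ, 0 < C ∧ ∀ g ∈ System d δ ν,
      ∀ x : ℝ, 1 ≤ x → ∀ a : Fin d → ℝ, Position a →
      ∀ R : (Fin (e + 1) → Fin d) → MvPolynomial (Fin (e + 1)) ℝ,
      (∀ J, Function.Injective J → (R J).IsHomogeneous t ∧ R J ≠ 0) →
      ∀ S : Finset (Fin d → ℤ), SmallPoints g Λ a x S →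
      (∀ p ∈ S, ∀ J : Fin (e + 1) → Fin d, Function.Injective J →
        NearZero θ (R J) fun i => ∑ j, g (J i) j * (p j : ℝ)) →
      (S.card : ℝ) ≤ C * x ^ (e - 1)) := by
  have hd0 : 0 < d := by omega
  have _ := he
  refine ⟨?_, fun θ hθ0 hθ => ?_⟩
  · obtain ⟨C, hC, H⟩ := hilb_growth (Λ := Λ) e hd0 t hδ hν
    exact ⟨C, hC, fun g hg x hx a ha S hS hcard => H g hg.1 hg.2 x hx a ha.1 ha.2 S hS hcard⟩
  · obtain ⟨C, hC, H⟩ := near_related (Λ := Λ) e hd0 t hδ hν hθ0 hθ
    exact ⟨C, hC, fun g hg x hx a ha R hR S hS hSR =>
      H g hg.1 hg.2 x hx a ha.1 ha.2 R hR S hS hSR⟩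

end Pool.Agent.Results.MP_edeaa2_an.HilbertFunctions
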