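import Mathlib
import Pool.Agent.K6.H9.SV.SubMain

/-! # MP_edeaa2_an: the number of small points in a linear subspace

Let `d ≥ 2`, `e ≥ 1` and `δ, ν > 0`, and let `m` be the largest divisor of `d` with `m ≤ e`. We
consider all products `F` of `d` real linear forms `l_i` in `d` variables with absolute determinant
`δ` and `|F| ≥ ν` at the nonzero integer points.

Every linear subspace of dimension at most `e` of `ℝ ^ d` contains at most
`C x ^ (m - 1) (1 + log x) ^ (e - 1)` nonzero integer points `p` with `|F(p)| ≤ Λ` of each
parallelepiped `|a_i l_i(p)| ≤ exp x` (`a` positive of product one, `x ≥ 1`). The constant `C` depends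
on `d, e, δ, ν, Λ` only.

So if `d` is prime, then every proper subspace contains only `O((log x) ^ (d - 2))` of these points,
whose number in the whole parallelepiped is of the order of `x ^ (d - 1)` for large `Λ`. If `d` is
not prime and `q` is its smallest prime factor, then every hyperplane contains at most
`C x ^ (d / q - 1) (1 + log x) ^ (d - 2)` of them. Up to the logarithms this is best possible for the
norm forms of the totally real number fields of degree `d` with a subfield of degree `m`: the units
of the subfield lie in a subspace of dimension `m`, and at least `c x ^ (m - 1)` of them lie in the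
parallelepiped with `a = 1`. For the planes (`e = 2`) in odd dimension `d` the bound is `O(log x)`.

The proof. The position of a point `p` is the vector of the `log |l_i(p)|`, up to a bounded error. Let
`f(u)` be the logarithm of the covolume of the integer points of a rational subspace `V` of dimension
`e` at the position `u`, i.e. after multiplication of the `l_i` by `exp (-u_i)`, `∑ u_i = 0`; it is
bounded below by the compactness of the orbit. It is a maximum of linear functions, one for each set
of `e` indices with a nonvanishing minor. We show: the set of the positions at which `f ≤ K` is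
contained, up to an error `C K`, in an affine subspace on which the `u_i` differ by constants for `i`
in the same class of a partition of the indices into at most `gcd(e, d)` classes. For this we
take the largest minor at a well-chosen position and the graph of the large entries of the matrix
of `V` in the corresponding basis. If the graph has a component with `n` indices, `m'` of them in the
basis, then `f` is decreasing in a direction of the diagonal group unless `m' d = n e`. On the other
hand, if `f(u) > K`, then the small points of `V` whose positions are at a distance of less than `c K`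
from `u` lie in a proper subspace of `V`. The theorem follows by induction on `e`. -/

set_option autoImplicit false

namespace Pool.Agent.Results.MP_edeaa2_an.SubspaceCounts

/-- the product of the linear forms given by the rows of `g`, at an integer point -/
noncomputable def F {d : ℕ} (g : Matrix (Fin d) (Fin d) ℝ) (p : Fin d → ℤ) : ℝ :=
  ∏ i : Fin d, ∑ j : Fin d, g i j * (p j : ℝ)

/-- the matrices with absolute determinant `δ` and form at least `ν` in absolute value at the nonzero
integer points -/
def System (d : ℕ) (δ ν : ℝ) : Set (Matrix (Fin d) (Fin d) ℝ) :=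
  {g | |g.det| = δ ∧ ∀ p : Fin d → ℤ, p ≠ 0 → ν ≤ |F g p|}

/-- `a` is positive of product one -/
def Position {d : ℕ} (a : Fin d → ℝ) : Prop := (∀ i, 0 < a i) ∧ ∏ i, a i = 1

/-- a finite set of nonzero integer points `p` with `|F(p)| ≤ Λ` and `|a_i l_i(p)| ≤ exp x` for
all `i` -/
def SmallPoints {d : ℕ} (g : Matrix (Fin d) (Fin d) ℝ) (Λ : ℝ) (a : Fin d → ℝ) (x : ℝ)
    (S : Finset (Fin d → ℤ)) : Prop :=
  ∀ p ∈ S, p ≠ 0 ∧ |F g p| ≤ Λ ∧ ∀ i, |a i * ∑ j, g i j * (p j : ℝ)| ≤ Real.exp x

theorem result (d e m : ℕ) (hd : 2 ≤ d) (he : 1 ≤ e)
    (hm : ∀ j : ℕ, j ∣ d → j ≤ e → j ≤ m) (δ ν Λ : ℝ) (hδ : 0 < δ) (hν : 0 < ν) :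
    ∃ C : ℝ, 0 < C ∧ ∀ g ∈ System d δ ν, ∀ V : Submodule ℝ (Fin d → ℝ),
      Module.finrank ℝ V ≤ e → ∀ x : ℝ, 1 ≤ x → ∀ a : Fin d → ℝ, Position a →
      ∀ S : Finset (Fin d → ℤ), SmallPoints g Λ a x S → (∀ p ∈ S, (fun i => (p i : ℝ)) ∈ V) →
      (S.card : ℝ) ≤ C * x ^ (m - 1) * (1 + Real.log x) ^ (e - 1) := by
  obtain ⟨C, hC, H⟩ := Pool.Agent.K6.H9.SV.subspace_count (Λ := Λ) (by omega : 0 < d) e m he hm
    hδ hν
  exact ⟨C, hC, fun g hg V hV x hx a ha S hS hSV =>
    H g hg.1 hg.2 x hx a ha.1 ha.2 V hV S hS hSV⟩

end Pool.Agent.Results.MP_edeaa2_an.SubspaceCounts
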