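import Mathlib
import Pool.Agent.K6.H90.SP.Quad

/-! # MP_edeaa2_an: sums of small points

Let `d ≥ 2` and `ν > 0`. We consider all products `F` of `d` real linear forms `l_i` in `d` variables
with `|F| ≥ ν` at the nonzero integer points (every form which violates the conjecture of Cassels and
Swinnerton-Dyer has this property for some `ν`), and the small points: the nonzero integer points
`p` with `|F(p)| ≤ Λ`. A parallelepiped `|a_i l_i(p)| ≤ exp x` (`a` positive of product one, `x ≥ 1`)
contains at most `C x ^ (d - 1)` of them, and at least `c x ^ (d - 1)` if `Λ` is large.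

(A) Every integer point `v ≠ 0` is a sum of two small points of a parallelepiped in at most
`C (1 + log⁺ (x / max 1 (log |F(v)|)))` ways. So the number of the representations is at most
`C (1 + log x)` for all `v ≠ 0`, and it is bounded if `|F(v)| ≥ exp (c x)`. As `-p` is small if `p` is,
the same holds for differences.

(B) The number of the quadruples `(p₀, p₁, p₂, p₃)` of small points of a parallelepiped with
`p₀ + p₁ + p₂ + p₃ = 0`, no two of them with sum zero, is at most
`C x ^ (2 d - 2 - ⌈d / 6⌉) (1 + log x)`. The trivial quadruples `(p, q, -p, -q)` are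
`c x ^ (2 d - 2)` in number if `Λ` is large. So in each parallelepiped the small points are nearly a
Sidon set: nearly all equations `p + q = p' + q'` between them are trivial.

The constants depend on `d, ν, Λ` only, not on the forms and the parallelepiped. For a norm form this
is an elementary weak form of the finiteness theorems for unit equations; here the small points carry
no multiplicative structure.

The proof. Let `v = p + q = p' + q'` with small points. The difference `p - p' = q' - q` has at `l_i` a
value at most `2 exp η min (|l_i(p)|, |l_i(q)|)` if the logarithms of the coordinates of `p, p'` and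
of `q, q'` differ by at most `η`. The product over `i` of the `max (|l_i(p)|, |l_i(q)|)` is therefore
bounded by `C exp (d η)` if `p ≠ p'` (gap principle). The logarithm `h` of this product bounds the
coordinates of `p` and `q` relative to those of `v`, so the representations with `H ≤ h < 2 H` are
boundedly many, and `h` is at most `d x`. For (B), in each coordinate two of the four numbers
`|l_i(p_k)|` differ at most by a factor three; the number of pairs with this property is smaller by
a factor `x` for each coordinate. -/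

set_option autoImplicit false

namespace Pool.Agent.Results.MP_edeaa2_an.SumsOfSmallPoints

open Pool.Agent.K6.H90.SP

/-- the product of the linear forms given by the rows of `g`, at an integer point -/
noncomputable def F {d : ℕ} (g : Matrix (Fin d) (Fin d) ℝ) (p : Fin d → ℤ) : ℝ :=
  ∏ i : Fin d, ∑ j : Fin d, g i j * (p j : ℝ)

/-- the matrices whose form is at least `ν` in absolute value at the nonzero integer points -/
def System (d : ℕ) (ν : ℝ) : Set (Matrix (Fin d) (Fin d) ℝ) :=
  {g | ∀ p : Fin d → ℤ, p ≠ 0 → ν ≤ |F g p|}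

/-- `a` is positive of product one -/
def Position {d : ℕ} (a : Fin d → ℝ) : Prop := (∀ i, 0 < a i) ∧ ∏ i, a i = 1

/-- `p` is a small point of the parallelepiped: a nonzero integer point with `|F(p)| ≤ Λ` and
`|a_i l_i(p)| ≤ exp x` for all `i` -/
def SmallPoint {d : ℕ} (g : Matrix (Fin d) (Fin d) ℝ) (Λ : ℝ) (a : Fin d → ℝ) (x : ℝ)
    (p : Fin d → ℤ) : Prop :=
  p ≠ 0 ∧ |F g p| ≤ Λ ∧ ∀ i, |a i * ∑ j, g i j * (p j : ℝ)| ≤ Real.exp x

/-- the forms `a_i l_i` -/
noncomputable def forms {d : ℕ} (g : Matrix (Fin d) (Fin d) ℝ) (a : Fin d → ℝ) :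
    (Fin d → ℤ) →+ (Fin d → ℝ) where
  toFun p i := a i * ∑ j, g i j * (p j : ℝ)
  map_zero' := by
    funext i
    simp
  map_add' p q := by
    funext i
    simp only [Pi.add_apply, Int.cast_add, mul_add, Finset.sum_add_distrib]

lemma prod_forms {d : ℕ} (g : Matrix (Fin d) (Fin d) ℝ) {a : Fin d → ℝ} (ha : Position a)
    (p : Fin d → ℤ) : ∏ i, |forms g a p i| = |F g p| := by
  unfold F
  rw [Finset.abs_prod, ← one_mul (∏ i, |∑ j, g i j * (p j : ℝ)|), ← ha.2,
    ← Finset.prod_mul_distrib]
  refine Finset.prod_congr rfl fun i _ => ?_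
  change |a i * ∑ j, g i j * (p j : ℝ)| = _
  rw [abs_mul, abs_of_pos (ha.1 i)]

theorem result (d : ℕ) (hd : 2 ≤ d) (ν Λ : ℝ) (hν : 0 < ν) :
    ∃ C : ℝ, 0 < C ∧ ∀ g ∈ System d ν, ∀ a : Fin d → ℝ, Position a → ∀ x : ℝ, 1 ≤ x →
      -- (A)
      (∀ v : Fin d → ℤ, v ≠ 0 → ∀ R : Finset (Fin d → ℤ),
        (∀ p ∈ R, SmallPoint g Λ a x p ∧ SmallPoint g Λ a x (v - p)) →
        (R.card : ℝ) ≤ C * (1 + max 0 (Real.log (x / max 1 (Real.log |F g v|))))) ∧
      -- (B)
      (∀ S : Finset (Fin 4 → Fin d → ℤ),
        (∀ P ∈ S, (∀ k, SmallPoint g Λ a x (P k)) ∧ ∑ k, P k = 0 ∧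
          ∀ j k, j ≠ k → P j + P k ≠ 0) →
        (S.card : ℝ) ≤ C * x ^ (2 * (d - 1) - (d + 5) / 6) * (1 + Real.log x)) := by
  have hd0 : 0 < d := by omega
  obtain ⟨C₁, hC₁, H₁⟩ := rep_count hd0 Λ hν
  obtain ⟨C₂, hC₂, H₂⟩ := quad_count hd Λ hν
  refine ⟨max C₁ C₂, lt_max_of_lt_left hC₁, fun g hg a ha x hx => ?_⟩
  have hL : Nu (forms g a) ν := fun p hp => by
    rw [prod_forms g ha]
    exact hg p hp
  have hsmall : ∀ p, SmallPoint g Λ a x p → Small (forms g a) Λ x p := fun p hp =>
    ⟨hp.1, by rw [prod_forms g ha]; exact hp.2.1, hp.2.2⟩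
  have hlx : 0 ≤ Real.log x := Real.log_nonneg hx
  constructor
  · intro v hv R hR
    have h1 := H₁ _ (forms g a) hL x hx v hv R
      fun p hp => ⟨hsmall _ (hR p hp).1, hsmall _ (hR p hp).2⟩
    rw [prod_forms g ha] at h1
    refine h1.trans (mul_le_mul_of_nonneg_right (le_max_left _ _) ?_)
    have := le_max_left 0 (Real.log (x / max 1 (Real.log |F g v|)))
    linarith
  · intro S hS
    have h1 := H₂ _ (forms g a) hL x hx S
      fun P hP => ⟨fun k => hsmall _ ((hS P hP).1 k), (hS P hP).2⟩
    have h2 : (d - 1) / 6 + 1 = (d + 5) / 6 := by omega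
    rw [h2] at h1
    refine h1.trans (mul_le_mul_of_nonneg_right ?_ (by linarith))
    exact mul_le_mul_of_nonneg_right (le_max_right _ _) (by positivity)

end Pool.Agent.Results.MP_edeaa2_an.SumsOfSmallPoints
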