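import Mathlib
import Pool.Agent.K6.H32.TP4

/-! # MP_edeaa2_an: tensor products of symmetric powers of two different binary lattices

Let `g`, `h` be real invertible `2 × 2` matrices with first rows proportional to `(α, 1)` and
`(β, 1)`, `α`, `β` irrational (the second rows are arbitrary), let `k, l ≥ 1`, and let
`Sym^k g ⊗ Sym^l h` be the matrix of the map `P ↦ P((X,Y) g, (X',Y') h)` on forms of bidegree `(k, l)`.
Suppose that a rational linear fractional image of `β` (a fixed one, with an integral matrix of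
nonzero determinant, for example `β` itself) has arbitrarily long blocks of partial quotients in common
with `α`, at any places, in the same or in the reversed order.  Then the product of the
`(k + 1) (l + 1) n` linear forms given by the rows of `Sym^k g ⊗ Sym^l h ⊗ G`, `G` any real `n × n`
matrix, takes arbitrarily small values at nonzero integer points. -/

open Matrix Kronecker Filter Topology Polynomial

namespace Pool.Agent.Results.MP_edeaa2_an.TensorProducts

/-- complete quotients of the continued fraction of `α` -/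
noncomputable def cq (α : ℝ) : ℕ → ℝ
  | 0 => α
  | k + 1 => (Int.fract (cq α k))⁻¹

/-- partial quotients of the continued fraction of `α` -/
noncomputable def pq (α : ℝ) (k : ℕ) : ℤ := ⌊cq α k⌋

/-- the matrix of the map `P ↦ P((X,Y) g)` on binary forms of degree `k`: its entry `(i, j)` is the
coefficient of `t^i` in `(g₀₀ t + g₁₀)^(k-j) (g₀₁ t + g₁₁)^j` -/
noncomputable def Sym (k : ℕ) (g : Matrix (Fin 2) (Fin 2) ℝ) : Matrix (Fin (k + 1)) (Fin (k + 1)) ℝ :=
  Matrix.of fun i j => ((C (g 0 0) * X + C (g 1 0)) ^ (k - (j : ℕ)) *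
    (C (g 0 1) * X + C (g 1 1)) ^ (j : ℕ) : ℝ[X]).coeff i

/-- `A` takes arbitrarily small values: the product of the linear forms given by the rows of the real
matrix `A` takes arbitrarily small values at nonzero integer points -/
def SmallValues {ι : Type} [Fintype ι] (A : Matrix ι ι ℝ) : Prop :=
  ∀ ε : ℝ, 0 < ε → ∃ x : ι → ℤ, x ≠ 0 ∧ |∏ i, (A *ᵥ fun j => (x j : ℝ)) i| < ε

/-- `α` and `γ` have arbitrarily long common blocks of partial quotients, in the same or in the
reversed order -/
def CommonBlocks (α γ : ℝ) : Prop :=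
  ∀ L : ℕ, ∃ i j : ℕ, (∀ r < L, pq α (i + r) = pq γ (j + r)) ∨
    (∀ r < L, pq α (i + r) = pq γ (j + (L - 1 - r)))

theorem result (α β : ℝ) (hα : Irrational α) (hβ : Irrational β)
    (N : Matrix (Fin 2) (Fin 2) ℤ) (hN : N.det ≠ 0)
    (hc : CommonBlocks α (((N 0 0 : ℝ) * β + N 0 1) / ((N 1 0 : ℝ) * β + N 1 1)))
    (g h : Matrix (Fin 2) (Fin 2) ℝ) (hg : g.det ≠ 0) (hh : h.det ≠ 0)
    (hgα : g 0 0 = α * g 0 1) (hhβ : h 0 0 = β * h 0 1)
    (k l n : ℕ) (hk : 1 ≤ k) (hl : 1 ≤ l) (hn : 1 ≤ n) (G : Matrix (Fin n) (Fin n) ℝ) :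
    SmallValues ((Sym k g ⊗ₖ Sym l h) ⊗ₖ G) := by
  have hcq : ∀ (α : ℝ) (k : ℕ), cq α k = Pool.Agent.N759.CFr.cq α k := by
    intro α k
    induction k with
    | zero => rfl
    | succ k ih => rw [cq, ih]; rfl
  have hpq : ∀ (α : ℝ) (k : ℕ), pq α k = Pool.Agent.N759.CFr.pq α k := by
    intro α k
    rw [pq, hcq]
    rfl
  intro ε hε
  refine Pool.Agent.K6.H32.TP.tensor_small hα hβ N hN ?_ g h hg hh hgα hhβ k l hk hl n hn G ε hε
  intro L
  obtain ⟨i, j, hij⟩ := hc L
  refine ⟨i, j, ?_⟩
  rcases hij with hij | hij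
  · exact Or.inl fun r hr => by rw [← hpq, ← hpq]; exact hij r hr
  · exact Or.inr fun r hr => by rw [← hpq, ← hpq]; exact hij r hr

end Pool.Agent.Results.MP_edeaa2_an.TensorProducts
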